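import Pool.Agent.Helper61_AND.Num

/-!
# AND2B: the steps of the budget, inequalities between real numbers

`stage`: one stage, from the clock `s` to `th s`; `rel`: one release phase at the clock `s`, `σ` is the
clock at the start of the super-stage. `X` is the change made by the regauging.
-/

set_option autoImplicit false

open Filter Topology

noncomputable section

namespace Pool.Agent.AHH.H96

open Pool.Agent.AND.Num

/-- the logarithm of a power of `1 / (th s)` -/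
theorem log_bd (th s Cw : ℝ) (hth : 1 / 2 ≤ th) (_hth1 : th ≤ 1) (hs : 0 < s) (hs1 : s ≤ 1)
    (hCw : 1 ≤ Cw) : 1 + Real.log (Cw * (th * s) ^ (-Cw)) ≤ (1 + 2 * Cw) * (1 + |Real.log s|) := by
  have hts : 0 < th * s := by positivity
  have h1 : Real.log (Cw * (th * s) ^ (-Cw)) = Real.log Cw + -Cw * Real.log (th * s) := by
    rw [Real.log_mul (by positivity) (by positivity), Real.log_rpow hts]
  have h2 : Real.log (th * s) = Real.log th + Real.log s := Real.log_mul (by positivity) hs.ne'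
  have h3 : Real.log Cw ≤ Cw - 1 := Real.log_le_sub_one_of_pos (by linarith)
  have h4 : -Real.log th ≤ 1 := by
    have h5 : Real.log (1 / 2) ≤ Real.log th := Real.log_le_log (by norm_num) hth
    have h6 : Real.log (1 / 2) = -Real.log 2 := by rw [one_div, Real.log_inv]
    have h7 := Real.log_two_lt_d9
    linarith
  have h8 : -Real.log s = |Real.log s| := by
    rw [abs_of_nonpos (Real.log_nonpos hs.le hs1)]
  rw [h1, h2]
  have h9 := abs_nonneg (Real.log s)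
  have h10 : -Cw * (Real.log th + Real.log s) = Cw * (-Real.log th) + Cw * |Real.log s| := by
    rw [← h8]
    ring
  rw [h10]
  nlinarith

/-- the correction of the gauge is small -/
theorem small_X (Cr Cw Cp B p q : ℝ) (hCr : 0 ≤ Cr) (hCw : 1 ≤ Cw) (hCp : 0 ≤ Cp) (hB : 0 ≤ B)
    (hpq : q < p) (hp8 : p ≤ 1 / 8) :
    Small fun s => ∀ th : ℝ, 1 / 2 ≤ th → th ≤ 1 →
      Cr * (1 + Real.log (Cw * (th * s) ^ (-Cw))) * (B * s ^ (1 / 8 : ℝ) + Cp * s ^ p) ≤ s ^ q := by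
  have h0 := small_pow_log (2 * (Cr * (1 + 2 * Cw) * (B + Cp))) p q 0 hpq
  have h1 := small_pow_log (2 * (Cr * (1 + 2 * Cw) * (B + Cp))) p q 1 hpq
  refine ((h0.and h1).and (small_le 1 one_pos)).mono fun s hs ⟨⟨h0, h1⟩, hs1⟩ th hth hth1 => ?_
  have hl := log_bd th s Cw hth hth1 hs hs1 hCw
  have h2 : s ^ (1 / 8 : ℝ) ≤ s ^ p := rpow_anti hs hs1 hp8
  have h3 : 0 < s ^ p := Real.rpow_pos_of_pos hs _
  have h4 : B * s ^ (1 / 8 : ℝ) + Cp * s ^ p ≤ (B + Cp) * s ^ p := by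
    have := mul_le_mul_of_nonneg_left h2 hB
    linarith
  have h5 : 0 ≤ B * s ^ (1 / 8 : ℝ) + Cp * s ^ p := by
    have := Real.rpow_nonneg hs.le (1 / 8 : ℝ)
    positivity
  have h6 : 0 ≤ (1 + 2 * Cw) * (1 + |Real.log s|) := by
    have := abs_nonneg (Real.log s)
    positivity
  rw [pow_zero, mul_one] at h0
  rw [pow_one] at h1
  calc Cr * (1 + Real.log (Cw * (th * s) ^ (-Cw))) * (B * s ^ (1 / 8 : ℝ) + Cp * s ^ p)
      ≤ Cr * ((1 + 2 * Cw) * (1 + |Real.log s|)) * ((B + Cp) * s ^ p) := by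
        refine mul_le_mul (mul_le_mul_of_nonneg_left hl hCr) h4 h5 (by positivity)
    _ = (2 * (Cr * (1 + 2 * Cw) * (B + Cp)) * s ^ p +
          2 * (Cr * (1 + 2 * Cw) * (B + Cp)) * |Real.log s| * s ^ p) / 2 := by ring
    _ ≤ (s ^ q + s ^ q) / 2 := by linarith
    _ = s ^ q := by ring

/-- Minkowski: the step of `∑ |G|⁴` -/
theorem four (lam δ x : ℝ) (hlam : 0 < lam) (hδ : 0 ≤ δ) (hx : 0 ≤ x) (hx1 : x ≤ lam ^ (1 / 4 : ℝ)) :
    ((lam * (1 + δ)) ^ (1 / 4 : ℝ) + x) ^ 4 ≤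
      lam * ((1 + δ) * (1 + 15 * (x / lam ^ (1 / 4 : ℝ)))) := by
  set a : ℝ := lam ^ (1 / 4 : ℝ) with ha
  have ha0 : 0 < a := Real.rpow_pos_of_pos hlam _
  set b : ℝ := (1 + δ) ^ (1 / 4 : ℝ) with hb
  have hb1 : 1 ≤ b := Real.one_le_rpow (by linarith) (by norm_num)
  have ha4 : a ^ 4 = lam := by
    rw [ha, ← Real.rpow_natCast, ← Real.rpow_mul hlam.le]
    norm_num
  have hb4 : b ^ 4 = 1 + δ := by
    rw [hb, ← Real.rpow_natCast, ← Real.rpow_mul (by linarith)]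
    norm_num
  have h1 : (lam * (1 + δ)) ^ (1 / 4 : ℝ) = a * b := Real.mul_rpow hlam.le (by linarith)
  obtain ⟨ρ, hρ⟩ : ∃ ρ, ρ = x / a := ⟨_, rfl⟩
  have hρ0 : 0 ≤ ρ := by rw [hρ]; positivity
  have hρ1 : ρ ≤ 1 := by rw [hρ, div_le_one ha0]; exact hx1
  have hxa : x = a * ρ := by
    rw [hρ]
    field_simp
  rw [h1, ← hρ, hxa]
  have h2 : a * b + a * ρ ≤ a * b * (1 + ρ) := by
    have h3 : a * ρ * 1 ≤ a * ρ * b := mul_le_mul_of_nonneg_left hb1 (by positivity)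
    linarith
  have h3 : (1 + ρ) ^ 4 ≤ 1 + 15 * ρ := by
    have e2 : ρ ^ 2 ≤ ρ := by nlinarith
    have e3 : ρ ^ 3 ≤ ρ := by nlinarith
    have e4 : ρ ^ 4 ≤ ρ := by nlinarith
    nlinarith
  calc (a * b + a * ρ) ^ 4 ≤ (a * b * (1 + ρ)) ^ 4 := by gcongr
    _ = a ^ 4 * (b ^ 4 * (1 + ρ) ^ 4) := by ring
    _ = lam * ((1 + δ) * (1 + ρ) ^ 4) := by rw [ha4, hb4]
    _ ≤ lam * ((1 + δ) * (1 + 15 * ρ)) := by gcongr

/-- Bernoulli: `th ^ p ≤ 1 - p (1 - th)` -/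
theorem pow_up (th p : ℝ) (hth : 0 < th) (hp : 0 ≤ p) (hp1 : p ≤ 1) :
    th ^ p ≤ 1 - p * (1 - th) := by
  have h := rpow_one_add_le_one_add_mul_self (s := th - 1) (by linarith) hp hp1
  have e : 1 + (th - 1) = th := by ring
  rw [e] at h
  linarith

/-- `1 - 2 p (1 - th) ≤ th ^ p` -/
theorem pow_low (th p : ℝ) (hth : 1 / 2 ≤ th) (hth1 : th ≤ 1) (hp : 0 ≤ p) (hp1 : p ≤ 1) :
    1 - 2 * p * (1 - th) ≤ th ^ p := by
  have hth0 : 0 < th := by linarith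
  have h := rpow_one_add_le_one_add_mul_self (s := 1 / th - 1)
    (by have := one_div_pos.2 hth0; linarith) hp hp1
  have e : 1 + (1 / th - 1) = 1 / th := by ring
  rw [e, Real.div_rpow zero_le_one hth0.le, Real.one_rpow] at h
  have hp0 : 0 < th ^ p := Real.rpow_pos_of_pos hth0 _
  have h1 : 1 / th - 1 ≤ 2 * (1 - th) := by
    rw [div_sub_one hth0.ne', div_le_iff₀ hth0]
    nlinarith
  have h2 : 1 / th ^ p ≤ 1 + 2 * p * (1 - th) := by nlinarith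
  rw [div_le_iff₀ hp0] at h2
  have h3 : 0 ≤ 2 * p * (1 - th) := by
    have : 0 ≤ 1 - th := by linarith
    positivity
  nlinarith

/-- ONE STAGE: `s` the clock, `th s` the next one. -/
def StgP (Cr Cw Cp th ka s : ℝ) : Prop :=
  Cr * (1 + Real.log (Cw * (th * s) ^ (-Cw))) *
    (s ^ (1 / 8 : ℝ) + s ^ (1 / 8 - 1 / 200 : ℝ) * Cp) ≤ s ^ (1 / 9 : ℝ) ∧
  ∀ X : ℝ, 0 ≤ X → X ≤ s ^ (1 / 9 : ℝ) →
    s ^ (1 / 8 - 1 / 200 : ℝ) * Cp + X ≤ s ^ (1 / 20 : ℝ) * (1 - th ^ (1 / 20 : ℝ)) ∧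
    X ^ 2 ≤ (th * s) ^ (1 / 8 : ℝ) ∧
    (∀ lam : ℝ, 1 / 4 * s ^ (-(3 / 4) : ℝ) ≤ lam →
      ((lam * (1 + (1 - th) / (8 * Cp) * Cp)) ^ (1 / 4 : ℝ) + X * (th * s) ^ (-(1 / 4) : ℝ)) ^ 4 ≤
        th ^ (-(3 / 4) : ℝ) * lam) ∧
    (∀ y : ℝ, y ≤ s ^ (1 / 20 : ℝ) → s ^ (1 / 16 : ℝ) + y * Cp + X ≤
      s ^ (1 / 400 : ℝ) * (1 - th ^ (1 / 400 : ℝ))) ∧
    (∀ g : ℝ, 1 ≤ g → s ^ (ka / 2) * g * ((1 + th) / 2) + s ^ ka * Cp + X ≤
      th ^ (ka / 2) * (s ^ (ka / 2) * g)) ∧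
    s ^ ka * Cp + X ≤ s ^ (ka / 4) * (1 - th ^ (ka / 4))

theorem stage (Cr Cw Cp th ka : ℝ) (hth : 1 / 2 ≤ th) (hth1 : th < 1) (hCr : 0 ≤ Cr)
    (hCw : 1 ≤ Cw) (hCp : 0 < Cp) (hka : 0 < ka) (hka1 : ka ≤ 1 / 10) :
    Small (StgP Cr Cw Cp th ka) := by
  have hδ : 0 < 1 - th := by linarith
  have gap : ∀ p : ℝ, 0 < p → p ≤ 1 → 0 < 1 - th ^ p := fun p hp hp1 => by
    have := pow_up th p (by linarith) hp.le hp1
    have : 0 < p * (1 - th) := by positivity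
    linarith
  have a1 := small_X Cr Cw Cp 1 (1 / 8 - 1 / 200) (1 / 9) hCr hCw hCp.le zero_le_one (by norm_num)
    (by norm_num)
  have a2 := small_pow' Cp ((1 - th ^ (1 / 20 : ℝ)) / 2) (1 / 8 - 1 / 200) (1 / 20)
    (by have := gap (1 / 20) (by norm_num) (by norm_num); linarith) (by norm_num)
  have a3 := small_pow' 1 ((1 - th ^ (1 / 20 : ℝ)) / 2) (1 / 9) (1 / 20)
    (by have := gap (1 / 20) (by norm_num) (by norm_num); linarith) (by norm_num)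
  have a4 := small_pow' 2 1 (2 / 9) (1 / 8) one_pos (by norm_num)
  have a5 := small_rpow_le ((1 - th) / 240) (7 / 144) (by positivity) (by norm_num)
  have b1 := small_pow' 1 ((1 - th ^ (1 / 400 : ℝ)) / 3) (1 / 16) (1 / 400)
    (by have := gap (1 / 400) (by norm_num) (by norm_num); linarith) (by norm_num)
  have b2 := small_pow' Cp ((1 - th ^ (1 / 400 : ℝ)) / 3) (1 / 20) (1 / 400)
    (by have := gap (1 / 400) (by norm_num) (by norm_num); linarith) (by norm_num)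
  have b3 := small_pow' 1 ((1 - th ^ (1 / 400 : ℝ)) / 3) (1 / 9) (1 / 400)
    (by have := gap (1 / 400) (by norm_num) (by norm_num); linarith) (by norm_num)
  have c1 := small_pow' Cp ((1 - th) / 8) ka (ka / 2) (by positivity) (by linarith)
  have c2 := small_pow' 1 ((1 - th) / 8) (1 / 9) (ka / 2) (by positivity) (by linarith)
  have d1 := small_pow' Cp ((1 - th ^ (ka / 4)) / 2) ka (ka / 4)
    (by have := gap (ka / 4) (by positivity) (by linarith); linarith) (by linarith)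
  have d2 := small_pow' 1 ((1 - th ^ (ka / 4)) / 2) (1 / 9) (ka / 4)
    (by have := gap (ka / 4) (by positivity) (by linarith); linarith) (by linarith)
  refine ((((a1.and a2).and (a3.and a4)).and ((a5.and b1).and (b2.and b3))).and
    (((c1.and c2).and (d1.and d2)).and (small_le 1 one_pos))).mono fun s hs H => ?_
  obtain ⟨⟨⟨⟨a1, a2⟩, a3, a4⟩, ⟨a5, b1⟩, b2, b3⟩, ⟨⟨c1, c2⟩, d1, d2⟩, hs1⟩ := H
  have hth0 : 0 < th := by linarith
  refine ⟨?_, fun X hX0 hX => ⟨?_, ?_, ?_, ?_, ?_, ?_⟩⟩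
  · have := a1 th hth hth1.le
    rw [one_mul] at this
    rw [mul_comm (s ^ (1 / 8 - 1 / 200 : ℝ)) Cp]
    exact this
  · linarith
  · have h1 : X ^ 2 ≤ s ^ (2 / 9 : ℝ) := by
      calc X ^ 2 ≤ (s ^ (1 / 9 : ℝ)) ^ 2 := by gcongr
        _ = s ^ (2 / 9 : ℝ) := by
            rw [← Real.rpow_natCast, ← Real.rpow_mul hs.le]
            norm_num
    have h2 : (1 / 2 : ℝ) ≤ th ^ (1 / 8 : ℝ) := by
      have := pow_low th (1 / 8) hth hth1.le (by norm_num) (by norm_num)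
      linarith
    have h3 : 0 < s ^ (1 / 8 : ℝ) := Real.rpow_pos_of_pos hs _
    rw [Real.mul_rpow hth0.le hs.le]
    nlinarith
  · intro lam hlam
    have h1 : 0 < s ^ (-(3 / 4) : ℝ) := Real.rpow_pos_of_pos hs _
    have hl0 : 0 < lam := by linarith
    have h2 : (1 - th) / (8 * Cp) * Cp = (1 - th) / 8 := by
      field_simp
    rw [h2]
    -- `lam ^ (1/4) ≥ s ^ (-3/16) / 2`
    have h3 : 1 / 2 * s ^ (-(3 / 16) : ℝ) ≤ lam ^ (1 / 4 : ℝ) := by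
      have h4 : (1 / 2 * s ^ (-(3 / 16) : ℝ)) ^ 4 ≤ lam := by
        have h5 : (s ^ (-(3 / 16) : ℝ)) ^ 4 = s ^ (-(3 / 4) : ℝ) := by
          rw [← Real.rpow_natCast, ← Real.rpow_mul hs.le]
          norm_num
        rw [mul_pow, h5]
        linarith
      have h6 : 0 ≤ 1 / 2 * s ^ (-(3 / 16) : ℝ) := by positivity
      calc 1 / 2 * s ^ (-(3 / 16) : ℝ) = ((1 / 2 * s ^ (-(3 / 16) : ℝ)) ^ 4) ^ (1 / 4 : ℝ) := by
            rw [← Real.rpow_natCast, ← Real.rpow_mul h6]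
            norm_num
        _ ≤ lam ^ (1 / 4 : ℝ) := Real.rpow_le_rpow (by positivity) h4 (by norm_num)
    -- `x = X (th s) ^ (-1/4) ≤ 2 s ^ (1/9 - 1/4)`
    have h7 : (th * s) ^ (-(1 / 4) : ℝ) ≤ 2 * s ^ (-(1 / 4) : ℝ) := by
      rw [Real.mul_rpow hth0.le hs.le]
      have h8 : th ^ (-(1 / 4) : ℝ) ≤ 2 := by
        rw [Real.rpow_neg hth0.le]
        have h9 := pow_low th (1 / 4) hth hth1.le (by norm_num) (by norm_num)
        have h10 : (1 / 2 : ℝ) ≤ th ^ (1 / 4 : ℝ) := by linarith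
        rw [inv_le_comm₀ (by linarith) (by norm_num)]
        linarith
      have := Real.rpow_nonneg hs.le (-(1 / 4) : ℝ)
      gcongr
    have h11 : X * (th * s) ^ (-(1 / 4) : ℝ) ≤ 2 * s ^ (-(5 / 36) : ℝ) := by
      have h12 : s ^ (1 / 9 : ℝ) * s ^ (-(1 / 4) : ℝ) = s ^ (-(5 / 36) : ℝ) := by
        rw [← Real.rpow_add hs]
        norm_num
      calc X * (th * s) ^ (-(1 / 4) : ℝ) ≤ s ^ (1 / 9 : ℝ) * (2 * s ^ (-(1 / 4) : ℝ)) := by
            have := Real.rpow_nonneg (mul_nonneg hth0.le hs.le) (-(1 / 4) : ℝ)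
            gcongr
        _ = 2 * s ^ (-(5 / 36) : ℝ) := by rw [← h12]; ring
    have h13 : s ^ (-(5 / 36) : ℝ) = s ^ (7 / 144 : ℝ) * s ^ (-(3 / 16) : ℝ) := by
      rw [← Real.rpow_add hs]
      norm_num
    have h14 : 0 < s ^ (-(3 / 16) : ℝ) := Real.rpow_pos_of_pos hs _
    have hx0 : 0 ≤ X * (th * s) ^ (-(1 / 4) : ℝ) :=
      mul_nonneg hX0 (Real.rpow_nonneg (mul_nonneg hth0.le hs.le) _)
    have hla : 0 < lam ^ (1 / 4 : ℝ) := Real.rpow_pos_of_pos hl0 _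
    have h15 : X * (th * s) ^ (-(1 / 4) : ℝ) ≤ (1 - th) / 60 * lam ^ (1 / 4 : ℝ) := by
      calc X * (th * s) ^ (-(1 / 4) : ℝ) ≤ 2 * (s ^ (7 / 144 : ℝ) * s ^ (-(3 / 16) : ℝ)) := by
            rw [← h13]; exact h11
        _ ≤ 2 * ((1 - th) / 240 * s ^ (-(3 / 16) : ℝ)) := by gcongr
        _ = (1 - th) / 60 * (1 / 2 * s ^ (-(3 / 16) : ℝ)) := by ring
        _ ≤ _ := by gcongr
    have h16 : X * (th * s) ^ (-(1 / 4) : ℝ) ≤ lam ^ (1 / 4 : ℝ) := by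
      refine h15.trans ?_
      nlinarith
    have h17 := four lam ((1 - th) / 8) (X * (th * s) ^ (-(1 / 4) : ℝ)) hl0 (by positivity) hx0 h16
    refine h17.trans ?_
    have h18 : X * (th * s) ^ (-(1 / 4) : ℝ) / lam ^ (1 / 4 : ℝ) ≤ (1 - th) / 60 := by
      rw [div_le_iff₀ hla]
      exact h15
    have h19 : 1 + 3 / 4 * (1 - th) ≤ th ^ (-(3 / 4) : ℝ) := by
      rw [Real.rpow_neg hth0.le]
      have h20 := pow_up th (3 / 4) hth0 (by norm_num) (by norm_num)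
      have h21 : 0 < th ^ (3 / 4 : ℝ) := Real.rpow_pos_of_pos hth0 _
      rw [le_inv_comm₀ (by positivity) h21]
      rw [← one_div, le_div_iff₀ (by positivity)]
      nlinarith
    have h22 : (1 + (1 - th) / 8) * (1 + 15 * (X * (th * s) ^ (-(1 / 4) : ℝ) /
        lam ^ (1 / 4 : ℝ))) ≤ th ^ (-(3 / 4) : ℝ) := by
      refine le_trans ?_ h19
      have h23 : (1 + (1 - th) / 8) * (1 + 15 * (X * (th * s) ^ (-(1 / 4) : ℝ) /
          lam ^ (1 / 4 : ℝ))) ≤ (1 + (1 - th) / 8) * (1 + 15 * ((1 - th) / 60)) := by gcongr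
      refine h23.trans ?_
      nlinarith
    rw [mul_comm (th ^ (-(3 / 4) : ℝ)) lam]
    gcongr
  · intro y hy
    have hy2 : y * Cp ≤ s ^ (1 / 20 : ℝ) * Cp := mul_le_mul_of_nonneg_right hy hCp.le
    linarith
  · intro g hg
    have h1 := pow_low th (ka / 2) hth hth1.le (by positivity) (by linarith)
    have h2 : (1 - th) / 4 ≤ th ^ (ka / 2) - (1 + th) / 2 := by
      have : 2 * (ka / 2) * (1 - th) ≤ 1 / 4 * (1 - th) := by gcongr; linarith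
      linarith
    have h3 : 0 < s ^ (ka / 2) := Real.rpow_pos_of_pos hs _
    have h4 : s ^ ka * Cp + X ≤ (1 - th) / 4 * s ^ (ka / 2) := by linarith
    have h5 : (1 - th) / 4 * s ^ (ka / 2) ≤ (th ^ (ka / 2) - (1 + th) / 2) * (s ^ (ka / 2) * g) := by
      have h6 : s ^ (ka / 2) * 1 ≤ s ^ (ka / 2) * g := by gcongr
      have h7 : 0 ≤ (1 - th) / 4 := by positivity
      calc (1 - th) / 4 * s ^ (ka / 2) ≤ (1 - th) / 4 * (s ^ (ka / 2) * g) := by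
            gcongr
            linarith
        _ ≤ _ := by
            have : 0 ≤ s ^ (ka / 2) * g := by positivity
            gcongr
    linarith
  · linarith

/-- ONE RELEASE PHASE at the clock `s`; `σ` = the clock at the start of the super-stage. -/
def RelP (Cr Cw th ka s : ℝ) : Prop := ∀ σ : ℝ, s ≤ th * σ → σ ≤ 1 →
  Cr * (1 + Real.log (Cw * s ^ (-Cw))) * (s ^ (1 / 8 : ℝ) + 2 * s ^ (1 / 10 : ℝ)) ≤
    s ^ (1 / 11 : ℝ) ∧
  ∀ X : ℝ, 0 ≤ X → X ≤ s ^ (1 / 11 : ℝ) →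
    2 * s ^ (1 / 10 : ℝ) + X ≤ σ ^ (1 / 20 : ℝ) - s ^ (1 / 20 : ℝ) ∧
    X ^ 2 ≤ s ^ (1 / 8 : ℝ) ∧
    (((1 / 4 * s ^ (-(3 / 4) : ℝ) * (2 - σ ^ (1 / 400 : ℝ))) * (1 + 2 * s ^ (1 / 200 : ℝ))) ^
        (1 / 4 : ℝ) + X * s ^ (-(1 / 4) : ℝ)) ^ 4 ≤
      1 / 4 * s ^ (-(3 / 4) : ℝ) * (2 - s ^ (1 / 400 : ℝ)) ∧
    2 * s ^ (1 / 100 : ℝ) + X ≤ σ ^ (1 / 400 : ℝ) - s ^ (1 / 400 : ℝ) ∧
    s ^ (ka / 2) * (2 - σ ^ ka) + 2 * s ^ (1 / 100 : ℝ) + X ≤ s ^ (ka / 2) * (2 - s ^ ka) ∧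
    2 * s ^ (1 / 100 : ℝ) + X ≤ σ ^ (ka / 4) - s ^ (ka / 4)

theorem rel (Cr Cw th ka : ℝ) (hth : 1 / 2 ≤ th) (hth1 : th < 1) (hCr : 0 ≤ Cr)
    (hCw : 1 ≤ Cw) (hka : 0 < ka) (hka1 : ka ≤ 1 / 200) : Small (RelP Cr Cw th ka) := by
  have hth0 : 0 < th := by linarith
  have hδ : 0 < 1 - th := by linarith
  have gap : ∀ p : ℝ, 0 < p → p ≤ 1 → 0 < 1 - th ^ p := fun p hp hp1 => by
    have := pow_up th p (by linarith) hp.le hp1
    have : 0 < p * (1 - th) := by positivity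
    linarith
  have a1 := small_X Cr Cw 2 1 (1 / 10) (1 / 11) hCr hCw (by norm_num) zero_le_one (by norm_num)
    (by norm_num)
  have a2 := small_pow' 2 ((1 - th ^ (1 / 20 : ℝ)) / 2) (1 / 10) (1 / 20)
    (by have := gap (1 / 20) (by norm_num) (by norm_num); linarith) (by norm_num)
  have a3 := small_pow' 1 ((1 - th ^ (1 / 20 : ℝ)) / 2) (1 / 11) (1 / 20)
    (by have := gap (1 / 20) (by norm_num) (by norm_num); linarith) (by norm_num)
  have a4 := small_pow' 1 1 (2 / 11) (1 / 8) one_pos (by norm_num)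
  have g4 : 0 < (1 - th ^ (1 / 400 : ℝ)) / 400 := by
    have := gap (1 / 400) (by norm_num) (by norm_num)
    linarith
  have a5 := small_pow' 1 ((1 - th ^ (1 / 400 : ℝ)) / 400) (5 / 176) (1 / 400) g4 (by norm_num)
  have a6 := small_pow' 1 ((1 - th ^ (1 / 400 : ℝ)) / 400) (1 / 200) (1 / 400) g4 (by norm_num)
  have b1 := small_pow' 2 ((1 - th ^ (1 / 400 : ℝ)) / 2) (1 / 100) (1 / 400)
    (by linarith) (by norm_num)
  have b3 := small_pow' 1 ((1 - th ^ (1 / 400 : ℝ)) / 2) (1 / 11) (1 / 400)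
    (by linarith) (by norm_num)
  have hgk := gap ka hka (by linarith)
  have hgk4 := gap (ka / 4) (by positivity) (by linarith)
  have c1 := small_pow' 2 ((1 - th ^ ka) / 2) (1 / 100) (3 * ka / 2) (by linarith) (by linarith)
  have c2 := small_pow' 1 ((1 - th ^ ka) / 2) (1 / 11) (3 * ka / 2) (by linarith) (by linarith)
  have d1 := small_pow' 2 ((1 - th ^ (ka / 4)) / 2) (1 / 100) (ka / 4) (by linarith) (by linarith)
  have d2 := small_pow' 1 ((1 - th ^ (ka / 4)) / 2) (1 / 11) (ka / 4) (by linarith) (by linarith)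
  refine ((((a1.and a2).and (a3.and a4)).and ((a5.and a6).and (b1.and b3))).and
    (((c1.and c2).and (d1.and d2)).and (small_le 1 one_pos))).mono fun s hs H => ?_
  obtain ⟨⟨⟨⟨a1, a2⟩, a3, a4⟩, ⟨a5, a6⟩, b1, b3⟩, ⟨⟨c1, c2⟩, d1, d2⟩, hs1⟩ := H
  intro σ hσ hσ1
  have hσ0 : 0 < σ := by
    by_contra h
    push Not at h
    nlinarith
  -- the gain of a growing threshold
  have gain : ∀ p : ℝ, 0 < p → p ≤ 1 → s ^ p * (1 - th ^ p) ≤ σ ^ p - s ^ p := by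
    intro p hp hp1
    have h1 : s ^ p ≤ th ^ p * σ ^ p := by
      rw [← Real.mul_rpow hth0.le hσ0.le]
      exact Real.rpow_le_rpow hs.le hσ hp.le
    have h2 := gap p hp hp1
    have h3 : 0 < th ^ p := Real.rpow_pos_of_pos hth0 _
    have h4 : 0 < s ^ p := Real.rpow_pos_of_pos hs _
    have h5 : 0 < σ ^ p := Real.rpow_pos_of_pos hσ0 _
    nlinarith [mul_nonneg h5.le h2.le, mul_nonneg (mul_nonneg h5.le h2.le) h2.le]
  refine ⟨?_, fun X hX0 hX => ⟨?_, ?_, ?_, ?_, ?_, ?_⟩⟩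
  · have := a1 1 (by norm_num) le_rfl
    rw [one_mul, one_mul] at this
    exact this
  · have := gain (1 / 20) (by norm_num) (by norm_num)
    linarith
  · calc X ^ 2 ≤ (s ^ (1 / 11 : ℝ)) ^ 2 := by gcongr
      _ = s ^ (2 / 11 : ℝ) := by
          rw [← Real.rpow_natCast, ← Real.rpow_mul hs.le]
          norm_num
      _ ≤ s ^ (1 / 8 : ℝ) := by linarith
  · -- the fourth powers
    have h1 : 0 < s ^ (-(3 / 4) : ℝ) := Real.rpow_pos_of_pos hs _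
    have hσp : σ ^ (1 / 400 : ℝ) ≤ 1 := Real.rpow_le_one hσ0.le hσ1 (by norm_num)
    have hσp0 : 0 < σ ^ (1 / 400 : ℝ) := Real.rpow_pos_of_pos hσ0 _
    have hsp : s ^ (1 / 400 : ℝ) ≤ 1 := Real.rpow_le_one hs.le hs1 (by norm_num)
    obtain ⟨lam, hlam⟩ : ∃ lam, lam = 1 / 4 * s ^ (-(3 / 4) : ℝ) * (2 - σ ^ (1 / 400 : ℝ)) := ⟨_, rfl⟩
    rw [← hlam]
    have hl1 : 1 / 4 * s ^ (-(3 / 4) : ℝ) ≤ lam := by
      rw [hlam]
      nlinarith
    have hl0 : 0 < lam := by linarith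
    have h3 : 1 / 2 * s ^ (-(3 / 16) : ℝ) ≤ lam ^ (1 / 4 : ℝ) := by
      have h4 : (1 / 2 * s ^ (-(3 / 16) : ℝ)) ^ 4 ≤ lam := by
        have h5 : (s ^ (-(3 / 16) : ℝ)) ^ 4 = s ^ (-(3 / 4) : ℝ) := by
          rw [← Real.rpow_natCast, ← Real.rpow_mul hs.le]
          norm_num
        rw [mul_pow, h5]
        linarith
      have h6 : 0 ≤ 1 / 2 * s ^ (-(3 / 16) : ℝ) := by
        have := Real.rpow_nonneg hs.le (-(3 / 16) : ℝ)
        positivity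
      calc 1 / 2 * s ^ (-(3 / 16) : ℝ) = ((1 / 2 * s ^ (-(3 / 16) : ℝ)) ^ 4) ^ (1 / 4 : ℝ) := by
            rw [← Real.rpow_natCast, ← Real.rpow_mul h6]
            norm_num
        _ ≤ lam ^ (1 / 4 : ℝ) := Real.rpow_le_rpow (by positivity) h4 (by norm_num)
    have h14 : 0 < s ^ (-(3 / 16) : ℝ) := Real.rpow_pos_of_pos hs _
    have h12 : s ^ (1 / 11 : ℝ) * s ^ (-(1 / 4) : ℝ) = s ^ (5 / 176 : ℝ) * s ^ (-(3 / 16) : ℝ) := by
      rw [← Real.rpow_add hs, ← Real.rpow_add hs]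
      norm_num
    have hs4 : 0 < s ^ (-(1 / 4) : ℝ) := Real.rpow_pos_of_pos hs _
    have hx0 : 0 ≤ X * s ^ (-(1 / 4) : ℝ) := by positivity
    have hla : 0 < lam ^ (1 / 4 : ℝ) := Real.rpow_pos_of_pos hl0 _
    have h15 : X * s ^ (-(1 / 4) : ℝ) ≤ 2 * s ^ (5 / 176 : ℝ) * lam ^ (1 / 4 : ℝ) := by
      have hs5 : 0 < s ^ (5 / 176 : ℝ) := Real.rpow_pos_of_pos hs _
      calc X * s ^ (-(1 / 4) : ℝ) ≤ s ^ (1 / 11 : ℝ) * s ^ (-(1 / 4) : ℝ) := by gcongr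
        _ = 2 * s ^ (5 / 176 : ℝ) * (1 / 2 * s ^ (-(3 / 16) : ℝ)) := by rw [h12]; ring
        _ ≤ _ := by gcongr
    have hq : s ^ (1 / 400 : ℝ) * ((1 - th ^ (1 / 400 : ℝ)) / 400) ≤ 1 / 400 := by
      have : 0 < th ^ (1 / 400 : ℝ) := Real.rpow_pos_of_pos hth0 _
      nlinarith
    have hs5 : s ^ (5 / 176 : ℝ) ≤ 1 / 400 := by linarith
    have h16 : X * s ^ (-(1 / 4) : ℝ) ≤ lam ^ (1 / 4 : ℝ) := by
      refine h15.trans ?_
      nlinarith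
    have hs2 : 0 < s ^ (1 / 200 : ℝ) := Real.rpow_pos_of_pos hs _
    have hs6 : 0 < s ^ (5 / 176 : ℝ) := Real.rpow_pos_of_pos hs _
    have hs7 : s ^ (1 / 200 : ℝ) ≤ 1 / 400 := by linarith
    have h17 := four lam (2 * s ^ (1 / 200 : ℝ)) (X * s ^ (-(1 / 4) : ℝ)) hl0 (by positivity) hx0 h16
    refine h17.trans ?_
    have h18 : X * s ^ (-(1 / 4) : ℝ) / lam ^ (1 / 4 : ℝ) ≤ 2 * s ^ (5 / 176 : ℝ) := by
      rw [div_le_iff₀ hla]
      exact h15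
    have hg := gain (1 / 400) (by norm_num) (by norm_num)
    have h19 : (1 + 2 * s ^ (1 / 200 : ℝ)) * (1 + 15 * (X * s ^ (-(1 / 4) : ℝ) /
        lam ^ (1 / 4 : ℝ))) ≤ 1 + (σ ^ (1 / 400 : ℝ) - s ^ (1 / 400 : ℝ)) / 2 := by
      calc (1 + 2 * s ^ (1 / 200 : ℝ)) * (1 + 15 * (X * s ^ (-(1 / 4) : ℝ) / lam ^ (1 / 4 : ℝ)))
          ≤ (1 + 2 * s ^ (1 / 200 : ℝ)) * (1 + 15 * (2 * s ^ (5 / 176 : ℝ))) := by gcongr
        _ ≤ 1 + 4 * s ^ (1 / 200 : ℝ) + 60 * s ^ (5 / 176 : ℝ) := by nlinarith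
        _ ≤ 1 + (s ^ (1 / 400 : ℝ) * (1 - th ^ (1 / 400 : ℝ))) / 2 := by
            have hpos : 0 < s ^ (1 / 400 : ℝ) * (1 - th ^ (1 / 400 : ℝ)) := by
              have := Real.rpow_pos_of_pos hs (1 / 400 : ℝ)
              have := gap (1 / 400) (by norm_num) (by norm_num)
              positivity
            nlinarith
        _ ≤ _ := by linarith
    have h20 : lam * (1 + (σ ^ (1 / 400 : ℝ) - s ^ (1 / 400 : ℝ)) / 2) ≤
        1 / 4 * s ^ (-(3 / 4) : ℝ) * (2 - s ^ (1 / 400 : ℝ)) := by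
      rw [hlam]
      have h21 : 0 ≤ σ ^ (1 / 400 : ℝ) - s ^ (1 / 400 : ℝ) := by
        have := Real.rpow_pos_of_pos hs (1 / 400 : ℝ)
        have := gap (1 / 400) (by norm_num) (by norm_num)
        have : 0 ≤ s ^ (1 / 400 : ℝ) * (1 - th ^ (1 / 400 : ℝ)) := by positivity
        linarith
      have h22 : (2 - σ ^ (1 / 400 : ℝ)) * (1 + (σ ^ (1 / 400 : ℝ) - s ^ (1 / 400 : ℝ)) / 2) ≤
          2 - s ^ (1 / 400 : ℝ) := by nlinarith
      rw [mul_assoc]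
      gcongr
    refine le_trans ?_ h20
    gcongr
  · have := gain (1 / 400) (by norm_num) (by norm_num)
    linarith
  · have h1 := gain ka hka (by linarith)
    have h2 : 0 < s ^ (ka / 2) := Real.rpow_pos_of_pos hs _
    have h3 : s ^ (3 * ka / 2) = s ^ (ka / 2) * s ^ ka := by
      rw [← Real.rpow_add hs]
      congr 1
      ring
    have h4 : s ^ (ka / 2) * (s ^ ka * (1 - th ^ ka)) ≤ s ^ (ka / 2) * (σ ^ ka - s ^ ka) := by
      gcongr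
    rw [h3] at c1 c2
    nlinarith
  · have := gain (ka / 4) (by positivity) (by linarith)
    linarith

end Pool.Agent.AHH.H96
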