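import Pool.Agent.Helper61_AHH.RegN
import Pool.Agent.Helper96_AHH.Core

/-!
# AND2B (MP_1906c1_mp): the step of the budget `k → k + 1`
-/

set_option autoImplicit false

open scoped BigOperators NNReal

noncomputable section

namespace Pool.Agent.AHH.H96

open Pool.Agent.BED (Tor)
open Pool.Agent.AND2B (Ev)
open Pool.Agent.AND.Num
open Pool.Agent.AHH.H61

/-- the change by the regauging -/
def xx (Cr Cw : ℝ) (s : ℝ) (q : Num) : ℝ := Cr * (1 + Real.log (Cw * s ^ (-Cw))) * q.mis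

/-- `x ≥ 0` -/
theorem xx_nonneg (Cr Cw s : ℝ) (q : Num) (hCr : 0 ≤ Cr) (hCw : 1 ≤ Cw) (hs : 0 < s) (hs1 : s ≤ 1)
    (hq : 0 ≤ q.mis) : 0 ≤ xx Cr Cw s q := by
  have h1 : 1 ≤ s ^ (-Cw) := Real.one_le_rpow_of_pos_of_le_one_of_nonpos hs hs1 (by linarith)
  have h2 : 1 ≤ Cw * s ^ (-Cw) := by nlinarith
  have h3 := Real.log_nonneg h2
  unfold xx
  positivity

/-- THE NUMBERS OF `fin`, the steps -/
theorem sixF (d : ℕ) (a c C Cr Cw : ℝ) (hCr : 0 ≤ Cr) (hCw : 1 ≤ Cw) :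
    Ev d a es c C fun V => ∀ n k, ∀ r : ℝ, r ≤ (1 + V.th) / 2 →
      Stp (q1f V r n k) (qq V n (k + 1)) (V.cl (k + 1))
        (Cr * (1 + Real.log (Cw * (V.cl (k + 1) : ℝ) ^ (-Cw))) * (q1f V r n k).mis) := by
  have hcp : 0 < cpd d := by have := one_le_cpd d; linarith
  have h1 : Ev d a es c C fun V => ∀ s : ℝ, 0 < s → s ≤ V.w →
      s ≤ 1 ∧ StgP Cr Cw (cpd d) V.th (kaf V.α) s := by
    refine ev_small (fun th _ _ α _ s => s ≤ 1 ∧ StgP Cr Cw (cpd d) th (kaf α) s) ?_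
    intro th c₁ C₁ α J h1 h2 _ hα
    have h3 : (1 / 2 : ℝ) ≤ th := by exact_mod_cast h1
    have h4 : (th : ℝ) < 1 := by exact_mod_cast h2
    exact (small_le 1 one_pos).and (stage Cr Cw (cpd d) th (kaf α) h3 h4 hCr hCw hcp (kaf_pos α)
      (by have := kaf_le hα; linarith))
  refine (ev_good.and h1).imp fun V hV n k r hr => ?_
  obtain ⟨hG, hV⟩ := hV
  have hP : V.Pre a := hG.toPre
  have hs := cl_pos' hP k
  obtain ⟨hs1, hX, hS⟩ := hV (V.cl k) hs (cl_le' hP k)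
  have hcs : (V.cl (k + 1) : ℝ) = V.th * V.cl k := by
    rw [cl_succ V k]
    push_cast
    rfl
  have hth1 : (V.th : ℝ) ≤ 1 := by exact_mod_cast hP.th.2.le
  have hs' := cl_pos' hP (k + 1)
  have hs'1 : (V.cl (k + 1) : ℝ) ≤ 1 := (cl_anti' hP (Nat.le_succ k)).trans hs1
  have hsg0 := sg_pos hP n
  have hsg1 : V.sg n ≤ 1 := (sg_le hP n).trans (by
    have := (hV V.w (w_pos hP) le_rfl).1
    exact this)
  have hmis : (q1f V r n k).mis =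
      (V.cl k : ℝ) ^ (1 / 8 : ℝ) + (V.cl k : ℝ) ^ (1 / 8 - 1 / 200 : ℝ) * cpd d := rfl
  have hmis0 : 0 ≤ (q1f V r n k).mis := by
    rw [hmis]
    positivity
  have hx0 : 0 ≤ xx Cr Cw (V.cl (k + 1)) (q1f V r n k) :=
    xx_nonneg _ _ _ _ hCr hCw hs' hs'1 hmis0
  have hx1 : xx Cr Cw (V.cl (k + 1)) (q1f V r n k) ≤ (V.cl k : ℝ) ^ (1 / 9 : ℝ) := by
    unfold xx
    rw [hmis, hcs]
    exact hX
  obtain ⟨t1, t2, t3, t4, t5, t6⟩ := hS _ hx0 hx1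
  change Stp (q1f V r n k) (qq V n (k + 1)) (V.cl (k + 1)) (xx Cr Cw (V.cl (k + 1)) (q1f V r n k))
  obtain ⟨X, hXd⟩ : ∃ X, X = xx Cr Cw (V.cl (k + 1)) (q1f V r n k) := ⟨_, rfl⟩
  rw [← hXd] at t1 t2 t3 t4 t5 t6 hx0 hx1 ⊢
  refine ⟨hx1.trans (Real.rpow_le_one hs.le hs1 (by norm_num)), ?_, ?_, ?_, ?_, ?_, ?_⟩
  · show gr V (1 / 20) n k + (V.cl k : ℝ) ^ (1 / 8 - 1 / 200 : ℝ) * cpd d + X ≤
      gr V (1 / 20) n (k + 1)
    rw [gr_stage]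
    linarith
  · show X ^ 2 ≤ (V.cl (k + 1) : ℝ) ^ (1 / 8 : ℝ)
    rw [hcs]
    exact t2
  · show ((1 / 4 * (V.cl k : ℝ) ^ (-(3 / 4) : ℝ) * (2 - V.sg n ^ (1 / 400 : ℝ)) *
      (1 + (1 - (V.th : ℝ)) / (8 * cpd d) * cpd d)) ^ (1 / 4 : ℝ) +
        X * (V.cl (k + 1) : ℝ) ^ (-(1 / 4) : ℝ)) ^ 4 ≤
      1 / 4 * (V.cl (k + 1) : ℝ) ^ (-(3 / 4) : ℝ) * (2 - V.sg n ^ (1 / 400 : ℝ))
    rw [hcs]
    have h5 : V.sg n ^ (1 / 400 : ℝ) ≤ 1 := Real.rpow_le_one hsg0.le hsg1 (by norm_num)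
    have h6 : 0 < (V.cl k : ℝ) ^ (-(3 / 4) : ℝ) := Real.rpow_pos_of_pos hs _
    have h7 := t3 (1 / 4 * (V.cl k : ℝ) ^ (-(3 / 4) : ℝ) * (2 - V.sg n ^ (1 / 400 : ℝ)))
      (by
        have : 1 / 4 * (V.cl k : ℝ) ^ (-(3 / 4) : ℝ) * 1 ≤
            1 / 4 * (V.cl k : ℝ) ^ (-(3 / 4) : ℝ) * (2 - V.sg n ^ (1 / 400 : ℝ)) :=
          mul_le_mul_of_nonneg_left (by linarith) (by positivity)
        linarith)
    refine h7.trans (le_of_eq ?_)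
    rw [Real.mul_rpow (NNReal.coe_nonneg _) hs.le]
    ring
  · show gr V (1 / 400) n k + (V.cl k : ℝ) ^ (1 / 16 : ℝ) + (bud V).inY n k * cpd d + X ≤
      gr V (1 / 400) n (k + 1)
    have h5 : (bud V).inY n k ≤ (V.cl k : ℝ) ^ (1 / 20 : ℝ) := rpow_anti hs hs1 (by norm_num)
    have h6 := t4 _ h5
    rw [gr_stage]
    linarith
  · show (V.cl k : ℝ) ^ (ka V / 2) * (2 - V.sg n ^ ka V) * r + (V.cl k : ℝ) ^ ka V * cpd d + X ≤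
      (V.cl (k + 1) : ℝ) ^ (ka V / 2) * (2 - V.sg n ^ ka V)
    have h5 : V.sg n ^ ka V ≤ 1 := Real.rpow_le_one hsg0.le hsg1 ka_pos.le
    have h6 := t5 (2 - V.sg n ^ ka V) (by linarith)
    have h7 : 0 < (V.cl k : ℝ) ^ (ka V / 2) := Real.rpow_pos_of_pos hs _
    have h8 : (V.cl k : ℝ) ^ (ka V / 2) * (2 - V.sg n ^ ka V) * r ≤
        (V.cl k : ℝ) ^ (ka V / 2) * (2 - V.sg n ^ ka V) * ((1 + V.th) / 2) :=
      mul_le_mul_of_nonneg_left hr (mul_nonneg h7.le (by linarith))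
    rw [← ka_eq] at h6
    rw [hcs, Real.mul_rpow (NNReal.coe_nonneg _) hs.le, mul_assoc ((V.th : ℝ) ^ (ka V / 2))]
    linarith
  · show gr V (ka V / 4) n k + (V.cl k : ℝ) ^ ka V * cpd d + X ≤ gr V (ka V / 4) n (k + 1)
    rw [← ka_eq] at t6
    rw [gr_stage]
    linarith

end Pool.Agent.AHH.H96
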