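import Pool.Agent.Helper42_AHH.Fin
import Pool.Agent.Helper72_AHH.RegAll
import Pool.Agent.Helper72_AHH.WtsT
import Pool.Agent.Helper96_AHH.Stp

/-!
# AND2B (MP_1906c1_mp): the field `fin`
-/

set_option autoImplicit false

noncomputable section

namespace Pool.Agent.AHH.H96

/-- THE FIELD `fin` -/
theorem finT : FinF :=
  H42.finF H72.regT H72.wtsT fun d a c C Cr Cw _ _ _ _ _ hCr hCw =>
    (sixF d a c C Cr Cw (by linarith) hCw).imp fun _ h n k _ _ _ => h n k _ le_rfl

end Pool.Agent.AHH.H96
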